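import Pool.Agent.Helper91.IP.St.Stubs

/-!
# The octopus inequality (project IP, piece A3)
-/

namespace Pool.Agent.Helper30.IP

open Finset Equiv
open Pool.Agent.Helper91.IP

variable {V : Type} [Fintype V] [DecidableEq V]

theorem cor_inv (f : Perm V → ℝ) (g : Perm V) : cor f g⁻¹ = cor f g := by
  unfold cor
  have h := Fintype.sum_equiv (Equiv.mulLeft g) (fun s => f (g * s) * f s)
    (fun s => f s * f (g⁻¹ * s)) (fun s => by simp)
  rw [← h]
  exact sum_congr rfl fun s _ => mul_comm _ _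

omit [Fintype V] in
theorem cyc_inv {a b c : V} (hab : a ≠ b) (hac : a ≠ c) (hbc : b ≠ c) :
    swap b a * swap a c = (swap a b * swap b c)⁻¹ := by
  rw [mul_inv_rev, swap_inv, swap_inv]
  ext x
  simp only [Perm.coe_mul, Function.comp_apply]
  by_cases h1 : x = a
  · subst h1
    rw [swap_apply_left, swap_apply_left, swap_apply_left,
      swap_apply_of_ne_of_ne hbc.symm hac.symm]
  · by_cases h2 : x = b
    · subst h2
      rw [swap_apply_of_ne_of_ne hab.symm hbc, swap_apply_left, swap_apply_right,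
        swap_apply_of_ne_of_ne hab hac]
    · by_cases h3 : x = c
      · subst h3
        rw [swap_apply_right, swap_apply_right, swap_apply_of_ne_of_ne hac.symm hbc.symm,
          swap_apply_right]
      · rw [swap_apply_of_ne_of_ne h1 h3, swap_apply_of_ne_of_ne h2 h1,
          swap_apply_of_ne_of_ne h1 h2, swap_apply_of_ne_of_ne h2 h3]

omit [Fintype V] in
/-- rotation of a three-cycle -/
theorem cyc_rot {a b c : V} (hab : a ≠ b) (hac : a ≠ c) (hbc : b ≠ c) :
    swap a b * swap b c = swap b c * swap c a := by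
  ext x
  simp only [Perm.coe_mul, Function.comp_apply]
  by_cases h1 : x = a
  · subst h1
    rw [swap_apply_of_ne_of_ne hab hac, swap_apply_left, swap_apply_right, swap_apply_right]
  · by_cases h2 : x = b
    · subst h2
      rw [swap_apply_left, swap_apply_of_ne_of_ne hac.symm hbc.symm,
        swap_apply_of_ne_of_ne hbc hab.symm, swap_apply_left]
    · by_cases h3 : x = c
      · subst h3
        rw [swap_apply_right, swap_apply_right, swap_apply_left, swap_apply_of_ne_of_ne hab hac]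
      · rw [swap_apply_of_ne_of_ne h2 h3, swap_apply_of_ne_of_ne h1 h2,
          swap_apply_of_ne_of_ne h3 h1, swap_apply_of_ne_of_ne h2 h3]

theorem cor_cyc_swap (f : Perm V → ℝ) {a b c : V} (hab : a ≠ b) (hac : a ≠ c) (hbc : b ≠ c) :
    cor f (swap b a * swap a c) = cor f (swap a b * swap b c) := by
  rw [cyc_inv hab hac hbc, cor_inv]

theorem cor_cyc_swap' (f : Perm V → ℝ) {a b c : V} (hab : a ≠ b) (hac : a ≠ c) (hbc : b ≠ c) :
    cor f (swap a c * swap c b) = cor f (swap a b * swap b c) := by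
  have h1 : swap a c * swap c b = (swap a b * swap b c)⁻¹ := by
    rw [mul_inv_rev, swap_inv, swap_inv, cyc_rot hac hab hbc.symm, swap_comm c b, swap_comm b a]
  rw [h1, cor_inv]

theorem swap_mul_comm' {a b c d : V} (h : D4 a b c d) :
    swap a b * swap c d = swap c d * swap a b := by
  obtain ⟨hab, hac, had, hbc, hbd, hcd⟩ := h
  exact (Perm.Disjoint.commute (Perm.disjoint_iff_disjoint_support.2 (by
    rw [Perm.support_swap hab, Perm.support_swap hcd]
    simp only [disjoint_insert_left, mem_insert, mem_singleton, disjoint_singleton_left, not_or]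
    exact ⟨⟨hac, had⟩, hbc, hbd⟩))).eq

/-- `e4` is symmetric: first two arguments -/
theorem e4_swap12 (f : Perm V → ℝ) {a b c d : V} (h : D4 a b c d) :
    e4 f b a c d = e4 f a b c d := by
  obtain ⟨hab, hac, had, hbc, hbd, hcd⟩ := h
  unfold e4
  rw [cor_cyc_swap f hab hac hbc, cor_cyc_swap f hab had hbd, swap_comm b a]
  have h1 : swap b c * swap a d = swap a d * swap b c :=
    swap_mul_comm' ⟨hbc, hab.symm, hbd, hac.symm, hcd, had⟩
  have h2 : swap b d * swap a c = swap a c * swap b d :=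
    swap_mul_comm' ⟨hbd, hab.symm, hbc, had.symm, hcd.symm, hac⟩
  rw [h1, h2]
  ring

/-- `e4` is symmetric: middle arguments -/
theorem e4_swap23 (f : Perm V → ℝ) {a b c d : V} (h : D4 a b c d) :
    e4 f a c b d = e4 f a b c d := by
  obtain ⟨hab, hac, had, hbc, hbd, hcd⟩ := h
  unfold e4
  rw [cor_cyc_swap' f hab hac hbc, cor_cyc_swap f hbc hbd hcd, swap_comm c b]
  ring

/-- `e4` is symmetric: last arguments -/
theorem e4_swap34 (f : Perm V → ℝ) {a b c d : V} (h : D4 a b c d) :
    e4 f a b d c = e4 f a b c d := by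
  obtain ⟨hab, hac, had, hbc, hbd, hcd⟩ := h
  unfold e4
  rw [cor_cyc_swap' f hac had hcd, cor_cyc_swap' f hbc hbd hcd, swap_comm d c]
  ring

theorem dif_eq (f : Perm V → ℝ) (x y : V) : dif f x y = 2 * nsq f - 2 * cor f (swap x y) := by
  unfold dif nsq cor
  have h : ∑ s, f (swap x y * s) ^ 2 = ∑ s, f s ^ 2 :=
    Fintype.sum_equiv (Equiv.mulLeft (swap x y)) _ _ (fun s => by simp)
  have h2 : ∀ s, (f s - f (swap x y * s)) ^ 2
      = f s ^ 2 + f (swap x y * s) ^ 2 - 2 * (f s * f (swap x y * s)) := fun s => by ring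
  rw [sum_congr rfl fun s _ => h2 s, sum_sub_distrib, sum_add_distrib, h, ← mul_sum]
  ring

theorem dif_self (f : Perm V → ℝ) (x : V) : dif f x x = 0 := by
  unfold dif
  rw [swap_self]
  exact sum_eq_zero fun s _ => by
    have : (Equiv.refl V : Perm V) * s = s := rfl
    rw [this]; ring

theorem dif_comm (f : Perm V → ℝ) (x y : V) : dif f x y = dif f y x := by
  unfold dif; rw [swap_comm]

theorem nsq_nonneg (f : Perm V → ℝ) : 0 ≤ nsq f := sum_nonneg fun _ _ => sq_nonneg _

/-- the term of the 4-fold sum with one slot equal to `o` -/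
theorem slot_bound {o : V} {c : V → ℝ} (hc : ∀ y, 0 ≤ c y) {q : Prop} [Decidable q]
    {p : V → Prop} [DecidablePred p] {K e : ℝ} (hK : 0 ≤ K) (he : q → 0 ≤ e)
    (hpq : ∀ m, p m → q) :
    (if q then (-(∑ y ∈ univ.erase o, c y)) * K * e else 0) ≤
      - ∑ m ∈ univ.erase o, (if p m then c m * K * e else 0) := by
  by_cases hq : q
  · rw [if_pos hq]
    have h0 : 0 ≤ K * e := mul_nonneg hK (he hq)
    have h1 : ∑ m ∈ univ.erase o, (if p m then c m * K * e else 0)
        ≤ ∑ m ∈ univ.erase o, c m * (K * e) := by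
      refine sum_le_sum fun m _ => ?_
      split_ifs with h
      · rw [mul_assoc]
      · exact mul_nonneg (hc _) h0
    rw [← sum_mul] at h1
    nlinarith
  · rw [if_neg hq]
    have : ∑ m ∈ univ.erase o, (if p m then c m * K * e else 0) = 0 :=
      sum_eq_zero fun m _ => if_neg fun h => hq (hpq m h)
    rw [this, neg_zero]

omit [Fintype V] [DecidableEq V] in
theorem sum_rot4 (E : Finset V) (G : V → V → V → V → ℝ) :
    ∑ i ∈ E, ∑ j ∈ E, ∑ k ∈ E, ∑ l ∈ E, G i j k l
      = ∑ j ∈ E, ∑ k ∈ E, ∑ l ∈ E, ∑ i ∈ E, G i j k l := by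
  rw [sum_comm]
  refine sum_congr rfl fun j _ => ?_
  rw [sum_comm]
  refine sum_congr rfl fun k _ => ?_
  rw [sum_comm]

omit [Fintype V] [DecidableEq V] in
theorem sum_rot3 (E : Finset V) (G : V → V → V → ℝ) :
    ∑ i ∈ E, ∑ j ∈ E, ∑ k ∈ E, G i j k = ∑ j ∈ E, ∑ k ∈ E, ∑ i ∈ E, G i j k := by
  rw [sum_comm]
  refine sum_congr rfl fun j _ => ?_
  rw [sum_comm]

theorem sum4_split (o : V) (F : V → V → V → V → ℝ) (h12 : ∀ k l, F o o k l = 0)
    (h13 : ∀ j l, F o j o l = 0) (h14 : ∀ j k, F o j k o = 0) (h23 : ∀ i l, F i o o l = 0)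
    (h24 : ∀ i k, F i o k o = 0) (h34 : ∀ i j, F i j o o = 0) :
    ∑ i, ∑ j, ∑ k, ∑ l, F i j k l =
      (∑ i ∈ univ.erase o, ∑ j ∈ univ.erase o, ∑ k ∈ univ.erase o, ∑ l ∈ univ.erase o, F i j k l)
      + (∑ j ∈ univ.erase o, ∑ k ∈ univ.erase o, ∑ l ∈ univ.erase o, F o j k l)
      + (∑ i ∈ univ.erase o, ∑ k ∈ univ.erase o, ∑ l ∈ univ.erase o, F i o k l)
      + (∑ i ∈ univ.erase o, ∑ j ∈ univ.erase o, ∑ l ∈ univ.erase o, F i j o l)
      + (∑ i ∈ univ.erase o, ∑ j ∈ univ.erase o, ∑ k ∈ univ.erase o, F i j k o) := by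
  have hs : ∀ g : V → ℝ, ∑ x, g x = g o + ∑ x ∈ univ.erase o, g x :=
    fun g => (add_sum_erase univ g (mem_univ o)).symm
  simp only [hs, h12, h13, h14, h23, h24, h34, sum_add_distrib, zero_add,
    sum_const_zero]
  ring

/-- the 4-fold sum in the square of `X` is at most zero -/
theorem four_sum_le (f : Perm V → ℝ) (o : V) (c c' : V → ℝ) (hc : ∀ y, 0 ≤ c y)
    (hc' : ∀ y, y ≠ o → c' y = c y) (hco : c' o = -∑ y ∈ univ.erase o, c y) :
    ∑ i, ∑ j, ∑ k, ∑ l, (if D4 i j k l then c' i * c' j * c' k * c' l * e4 f i j k l else 0)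
      ≤ 0 := by
  have hE : ∀ {y : V}, y ∈ univ.erase o → y ≠ o := fun h => (mem_erase.1 h).1
  rw [sum4_split o]
  rotate_left
  · intro k l; exact if_neg fun h => h.1 rfl
  · intro k l; exact if_neg fun h => h.2.1 rfl
  · intro k l; exact if_neg fun h => h.2.2.1 rfl
  · intro k l; exact if_neg fun h => h.2.2.2.1 rfl
  · intro k l; exact if_neg fun h => h.2.2.2.2.1 rfl
  · intro k l; exact if_neg fun h => h.2.2.2.2.2 rfl
  have s1 : ∑ j ∈ univ.erase o, ∑ k ∈ univ.erase o, ∑ l ∈ univ.erase o,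
      (if D4 o j k l then c' o * c' j * c' k * c' l * e4 f o j k l else 0) ≤
      -∑ i ∈ univ.erase o, ∑ j ∈ univ.erase o, ∑ k ∈ univ.erase o, ∑ l ∈ univ.erase o,
        (if D4 i j k l then c i * c j * c k * c l * e4 f o j k l else 0) := by
    rw [sum_rot4]
    simp only [← sum_neg_distrib]
    refine sum_le_sum fun j hj => sum_le_sum fun k hk => sum_le_sum fun l hl => ?_
    have := slot_bound (o := o) hc (q := D4 o j k l) (p := fun m => D4 m j k l)
      (K := c j * c k * c l) (e := e4 f o j k l)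
      (mul_nonneg (mul_nonneg (hc _) (hc _)) (hc _)) (fun h => e4_nonneg f h)
      (fun m hm => ⟨(hE hj).symm, (hE hk).symm, (hE hl).symm, hm.2.2.2.1, hm.2.2.2.2.1,
        hm.2.2.2.2.2⟩)
    refine le_trans (le_of_eq ?_) (this.trans (le_of_eq ?_))
    · rw [hco, hc' j (hE hj), hc' k (hE hk), hc' l (hE hl)]
      congr 1; ring
    · rw [← sum_neg_distrib]
      refine sum_congr rfl fun m _ => ?_
      congr 2; ring
  have s2 : ∑ i ∈ univ.erase o, ∑ k ∈ univ.erase o, ∑ l ∈ univ.erase o,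
      (if D4 i o k l then c' i * c' o * c' k * c' l * e4 f i o k l else 0) ≤
      -∑ i ∈ univ.erase o, ∑ j ∈ univ.erase o, ∑ k ∈ univ.erase o, ∑ l ∈ univ.erase o,
        (if D4 i j k l then c i * c j * c k * c l * e4 f i o k l else 0) := by
    rw [← sum_neg_distrib]
    refine sum_le_sum fun i hi => ?_
    rw [sum_rot3]
    simp only [← sum_neg_distrib]
    refine sum_le_sum fun k hk => sum_le_sum fun l hl => ?_
    have := slot_bound (o := o) hc (q := D4 i o k l) (p := fun m => D4 i m k l)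
      (K := c i * c k * c l) (e := e4 f i o k l)
      (mul_nonneg (mul_nonneg (hc _) (hc _)) (hc _)) (fun h => e4_nonneg f h)
      (fun m hm => ⟨hE hi, hm.2.1, hm.2.2.1, (hE hk).symm, (hE hl).symm, hm.2.2.2.2.2⟩)
    refine le_trans (le_of_eq ?_) (this.trans (le_of_eq ?_))
    · rw [hco, hc' i (hE hi), hc' k (hE hk), hc' l (hE hl)]
      congr 1; ring
    · rw [← sum_neg_distrib]
      refine sum_congr rfl fun m _ => ?_
      congr 2; ring
  have s3 : ∑ i ∈ univ.erase o, ∑ j ∈ univ.erase o, ∑ l ∈ univ.erase o,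
      (if D4 i j o l then c' i * c' j * c' o * c' l * e4 f i j o l else 0) ≤
      -∑ i ∈ univ.erase o, ∑ j ∈ univ.erase o, ∑ k ∈ univ.erase o, ∑ l ∈ univ.erase o,
        (if D4 i j k l then c i * c j * c k * c l * e4 f i j o l else 0) := by
    simp only [← sum_neg_distrib]
    refine sum_le_sum fun i hi => sum_le_sum fun j hj => ?_
    rw [sum_comm]
    refine sum_le_sum fun l hl => ?_
    have := slot_bound (o := o) hc (q := D4 i j o l) (p := fun m => D4 i j m l)
      (K := c i * c j * c l) (e := e4 f i j o l)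
      (mul_nonneg (mul_nonneg (hc _) (hc _)) (hc _)) (fun h => e4_nonneg f h)
      (fun m hm => ⟨hm.1, hE hi, hm.2.2.1, hE hj, hm.2.2.2.2.1, (hE hl).symm⟩)
    refine le_trans (le_of_eq ?_) (this.trans (le_of_eq ?_))
    · rw [hco, hc' i (hE hi), hc' j (hE hj), hc' l (hE hl)]
      congr 1; ring
    · rw [← sum_neg_distrib]
      refine sum_congr rfl fun m _ => ?_
      congr 2; ring
  have s4 : ∑ i ∈ univ.erase o, ∑ j ∈ univ.erase o, ∑ k ∈ univ.erase o,
      (if D4 i j k o then c' i * c' j * c' k * c' o * e4 f i j k o else 0) ≤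
      -∑ i ∈ univ.erase o, ∑ j ∈ univ.erase o, ∑ k ∈ univ.erase o, ∑ l ∈ univ.erase o,
        (if D4 i j k l then c i * c j * c k * c l * e4 f i j k o else 0) := by
    simp only [← sum_neg_distrib]
    refine sum_le_sum fun i hi => sum_le_sum fun j hj => sum_le_sum fun k hk => ?_
    have := slot_bound (o := o) hc (q := D4 i j k o) (p := fun m => D4 i j k m)
      (K := c i * c j * c k) (e := e4 f i j k o)
      (mul_nonneg (mul_nonneg (hc _) (hc _)) (hc _)) (fun h => e4_nonneg f h)
      (fun m hm => ⟨hm.1, hm.2.1, hE hi, hm.2.2.2.1, hE hj, hE hk⟩)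
    refine le_trans (le_of_eq ?_) (this.trans (le_of_eq ?_))
    · rw [hco, hc' i (hE hi), hc' j (hE hj), hc' k (hE hk)]
      congr 1; ring
    · rw [← sum_neg_distrib]
      refine sum_congr rfl fun m _ => ?_
      congr 2; ring
  have s5 : ∑ i ∈ univ.erase o, ∑ j ∈ univ.erase o, ∑ k ∈ univ.erase o, ∑ l ∈ univ.erase o,
      (if D4 i j k l then c' i * c' j * c' k * c' l * e4 f i j k l else 0) ≤
      (∑ i ∈ univ.erase o, ∑ j ∈ univ.erase o, ∑ k ∈ univ.erase o, ∑ l ∈ univ.erase o,
        (if D4 i j k l then c i * c j * c k * c l * e4 f o j k l else 0)) +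
      (∑ i ∈ univ.erase o, ∑ j ∈ univ.erase o, ∑ k ∈ univ.erase o, ∑ l ∈ univ.erase o,
        (if D4 i j k l then c i * c j * c k * c l * e4 f i o k l else 0)) +
      (∑ i ∈ univ.erase o, ∑ j ∈ univ.erase o, ∑ k ∈ univ.erase o, ∑ l ∈ univ.erase o,
        (if D4 i j k l then c i * c j * c k * c l * e4 f i j o l else 0)) +
      (∑ i ∈ univ.erase o, ∑ j ∈ univ.erase o, ∑ k ∈ univ.erase o, ∑ l ∈ univ.erase o,
        (if D4 i j k l then c i * c j * c k * c l * e4 f i j k o else 0)) := by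
    simp only [← sum_add_distrib]
    refine sum_le_sum fun i hi => sum_le_sum fun j hj => sum_le_sum fun k hk =>
      sum_le_sum fun l hl => ?_
    by_cases h : D4 i j k l
    · simp only [if_pos h]
      rw [hc' i (hE hi), hc' j (hE hj), hc' k (hE hk), hc' l (hE hl)]
      have h5 := e4_five f h (hE hi).symm (hE hj).symm (hE hk).symm (hE hl).symm
      obtain ⟨hij, hik, hil, hjk, hjl, hkl⟩ := h
      have hio := hE hi
      have hjo := hE hj
      have hko := hE hk
      have hlo := hE hl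
      have e1 : e4 f i o k l = e4 f o i k l :=
        e4_swap12 f ⟨hio.symm, hko.symm, hlo.symm, hik, hil, hkl⟩
      have e2 : e4 f i j o l = e4 f o i j l := by
        rw [← e4_swap23 f ⟨hij, hio, hil, hjo, hjl, hlo.symm⟩]
        exact e4_swap12 f ⟨hio.symm, hjo.symm, hlo.symm, hij, hil, hjl⟩
      have e3 : e4 f i j k o = e4 f o i j k := by
        rw [← e4_swap34 f ⟨hij, hik, hio, hjk, hjo, hko⟩,
          ← e4_swap23 f ⟨hij, hio, hik, hjo, hjk, hko.symm⟩]
        exact e4_swap12 f ⟨hio.symm, hjo.symm, hko.symm, hij, hik, hjk⟩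
      rw [e1, e2, e3]
      have h0 : 0 ≤ c i * c j * c k * c l :=
        mul_nonneg (mul_nonneg (mul_nonneg (hc _) (hc _)) (hc _)) (hc _)
      have := mul_le_mul_of_nonneg_left h5 h0
      linarith
    · simp only [if_neg h, add_zero, le_refl]
  linarith

theorem octopus (f : Perm V → ℝ) (o : V) (c : V → ℝ) (hc : ∀ y, 0 ≤ c y) :
    ∑ y ∈ univ.erase o, ∑ z ∈ univ.erase o, c y * c z * dif f y z ≤
      2 * (∑ y ∈ univ.erase o, c y) * ∑ y ∈ univ.erase o, c y * dif f o y := by
  set C := ∑ y ∈ univ.erase o, c y with hC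
  set c' : V → ℝ := fun y => if y = o then -C else c y with hc'def
  have hc' : ∀ y, y ≠ o → c' y = c y := fun y h => if_neg h
  have hco : c' o = -C := if_pos rfl
  have hs : ∀ g : V → ℝ, ∑ x, g x = g o + ∑ x ∈ univ.erase o, g x :=
    fun g => (add_sum_erase univ g (mem_univ o)).symm
  have hE : ∀ {y : V}, y ∈ univ.erase o → y ≠ o := fun h => (mem_erase.1 h).1
  have hsum : ∑ x, c' x = 0 := by
    rw [hs, hco, sum_congr rfl fun x hx => hc' x (hE hx)]
    ring
  have hX := X_sq f c' hsum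
  have h4 := four_sum_le f o c c' hc hc' hco
  set a : ℝ := (1 / 2) * ∑ x, c' x ^ 2 with ha
  have ha0 : 0 ≤ a := mul_nonneg (by norm_num) (sum_nonneg fun _ _ => sq_nonneg _)
  set X : Perm V → ℝ :=
    fun s => (1 / 2) * ∑ i, ∑ j, (if i = j then 0 else c' i * c' j * f (swap i j * s)) with hXdef
  have hX2 : ∑ s, X s ^ 2 ≤ a ^ 2 * nsq f := by
    have : ∑ s, X s ^ 2 = _ := hX
    rw [this]; linarith
  have hcs : (∑ s, f s * X s) ^ 2 ≤ (a * nsq f) ^ 2 := by
    have h1 := sum_mul_sq_le_sq_mul_sq univ f X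
    have h2 : (∑ s, f s ^ 2) = nsq f := rfl
    rw [h2] at h1
    have h3 := mul_le_mul_of_nonneg_left hX2 (nsq_nonneg f)
    calc _ ≤ _ := h1
      _ ≤ _ := h3
      _ = _ := by ring
  have hlow : -(a * nsq f) ≤ ∑ s, f s * X s :=
    (abs_le_of_sq_le_sq' hcs (mul_nonneg ha0 (nsq_nonneg f))).1
  have hfX : ∑ s, f s * X s = (1 / 2) * ∑ i, ∑ j, (if i = j then 0 else c' i * c' j *
      cor f (swap i j)) := by
    have h1 : ∀ s, f s * X s = (1 / 2) * ∑ i, ∑ j, (if i = j then 0 else c' i * c' j *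
        (f s * f (swap i j * s))) := by
      intro s
      simp only [hXdef]
      rw [mul_left_comm, mul_sum]
      congr 1
      refine sum_congr rfl fun i _ => ?_
      rw [mul_sum]
      refine sum_congr rfl fun j _ => ?_
      split_ifs
      · exact mul_zero _
      · ring
    rw [sum_congr rfl fun s _ => h1 s, ← mul_sum, sum_comm]
    congr 1
    refine sum_congr rfl fun i _ => ?_
    rw [sum_comm]
    refine sum_congr rfl fun j _ => ?_
    split_ifs
    · exact sum_const_zero
    · rw [← mul_sum]; rfl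
  have hterm : ∀ i j, (if i = j then 0 else c' i * c' j * cor f (swap i j)) =
      c' i * c' j * nsq f - (if i = j then c' i ^ 2 * nsq f else 0)
        - (1 / 2) * (c' i * c' j * dif f i j) := by
    intro i j
    by_cases h : i = j
    · subst h
      rw [if_pos rfl, if_pos rfl, dif_self]; ring
    · rw [if_neg h, if_neg h, dif_eq]; ring
  have hS : ∑ i, ∑ j, (if i = j then 0 else c' i * c' j * cor f (swap i j)) =
      -(2 * a * nsq f) - (1 / 2) * ∑ i, ∑ j, c' i * c' j * dif f i j := by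
    simp only [hterm, sum_sub_distrib, ← mul_sum, ← sum_mul, sum_ite_eq, mem_univ, if_true]
    rw [hsum, ha]
    ring
  have hD : ∑ i, ∑ j, c' i * c' j * dif f i j ≤ 0 := by
    rw [hfX, hS] at hlow
    linarith
  have hD2 : ∑ i, ∑ j, c' i * c' j * dif f i j =
      (∑ y ∈ univ.erase o, ∑ z ∈ univ.erase o, c y * c z * dif f y z)
        - 2 * C * ∑ y ∈ univ.erase o, c y * dif f o y := by
    rw [hs]
    have h1 : ∑ j, c' o * c' j * dif f o j = -C * ∑ y ∈ univ.erase o, c y * dif f o y := by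
      rw [hs, dif_self, mul_zero, zero_add, mul_sum]
      refine sum_congr rfl fun j hj => ?_
      rw [hco, hc' j (hE hj)]; ring
    have h2 : ∑ i ∈ univ.erase o, ∑ j, c' i * c' j * dif f i j =
        (∑ i ∈ univ.erase o, ∑ j ∈ univ.erase o, c i * c j * dif f i j)
          + -C * ∑ y ∈ univ.erase o, c y * dif f o y := by
      rw [mul_sum, ← sum_add_distrib]
      refine sum_congr rfl fun i hi => ?_
      rw [hs, hco, hc' i (hE hi), dif_comm f i o, add_comm]
      congr 1
      · refine sum_congr rfl fun j hj => ?_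
        rw [hc' j (hE hj)]
      · ring
    rw [h1, h2]; ring
  rw [hD2] at hD
  linarith

end Pool.Agent.Helper30.IP
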